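import Pool.Agent.W500.FL.Stm

/-! Project FL: basic facts on the Jacobi symbol. -/

set_option autoImplicit false

namespace Pool.Agent.W427.FL

open Polynomial Pool.Agent.W500.FL

theorem res_deg {K : Type} [Field K] (f g : K[X]) (hf : f.Monic) (n : ℕ) (hn : g.natDegree ≤ n) :
    resultant f g f.natDegree n = resultant f g := by
  obtain ⟨k, rfl⟩ := Nat.exists_eq_add_of_le hn
  rw [resultant_add_right_deg _ _ _ _ _ le_rfl, hf.coeff_natDegree, one_pow, one_mul]

theorem main : S_J := by
  intro K _ _ _
  refine ⟨?_, ?_, ?_, ?_, ?_, ?_, ?_⟩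
  · intro f a b hf
    unfold jac
    rw [← res_deg f (a * b) hf _ natDegree_mul_le, resultant_mul_right f a b _ le_rfl, map_mul]
  · intro f g a hf hg
    unfold jac
    have h1 : (f * g).natDegree = f.natDegree + g.natDegree := hf.natDegree_mul hg
    have h2 : resultant (f * g) a = resultant (f * g) a (f.natDegree + g.natDegree) a.natDegree := by
      rw [h1]
    rw [h2, resultant_mul_left f g a _ le_rfl, map_mul]
  · intro f a b hf hd
    obtain ⟨k, hk⟩ := hd
    have ha : a = b + f * k := by rw [← hk]; ring
    unfold jac
    rw [← res_deg f a hf (k.natDegree + f.natDegree + a.natDegree + b.natDegree) (by omega),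
      ← res_deg f b hf (k.natDegree + f.natDegree + a.natDegree + b.natDegree) (by omega)]
    have h3 := resultant_add_mul_right f b k f.natDegree
      (k.natDegree + f.natDegree + a.natDegree + b.natDegree) (by omega) le_rfl
    rw [← ha] at h3
    rw [h3]
  · intro f c hf
    unfold jac
    rw [resultant_C_right, hf.coeff_natDegree, one_pow, one_mul, map_pow]
  · intro f g _ _
    unfold jac
    rw [resultant_comm, map_mul, map_pow]
  · intro f a hf
    unfold jac
    rw [Ne, quadraticChar_eq_zero_iff, ← isUnit_resultant_iff_isCoprime hf, isUnit_iff_ne_zero]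
  · intro f a h
    unfold jac at h ⊢
    rw [Ne, quadraticChar_eq_zero_iff] at h
    exact quadraticChar_dichotomy h

end Pool.Agent.W427.FL
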